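import Mathlib

set_option autoImplicit false
set_option linter.unusedSectionVars false

/-!
# Consensus times of the asynchronous energy minimization dynamics for different exponents

There is no constant `C` with `E[τ_{p₂}(ε)] ≤ C E[τ_{p₁}(ε)]` for all `1 < p₁ < p₂`: on the
complete graph with four vertices, with `p₂ = 2` and `p₁` close to `1`, the quotient is unbounded.
-/

namespace Pool.Agent.Results.MP_7677b2_pr.NoComparison

open Finset MeasureTheory ProbabilityTheory
open scoped ENNReal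

/-! ### Definitions -/

section Defs

variable {n : ℕ}

open Classical in
/-- the energy `Ψ(y) = ∑_{w ∼ v} |y - f w| ^ p` -/
noncomputable def energy (p : ℝ) (G : SimpleGraph (Fin n)) (f : Fin n → ℝ) (v : Fin n) (y : ℝ) : ℝ :=
  ∑ w, if G.Adj v w then |y - f w| ^ p else 0

/-- the minimizer of the energy -/
noncomputable def argmin (p : ℝ) (G : SimpleGraph (Fin n)) (f : Fin n → ℝ) (v : Fin n) : ℝ :=
  Classical.epsilon fun y => ∀ z, energy p G f v y ≤ energy p G f v z

/-- The dynamics started from `f₀` along the update sequence `ω` (at step `t + 1` the vertex `ω t`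
is updated). -/
noncomputable def run (p : ℝ) (G : SimpleGraph (Fin n)) (f₀ : Fin n → ℝ) (ω : ℕ → Fin n) :
    ℕ → Fin n → ℝ
  | 0 => f₀
  | t + 1 => Function.update (run p G f₀ ω t) (ω t) (argmin p G (run p G f₀ ω t) (ω t))

/-- the oscillation `max f - min f` -/
noncomputable def osc (f : Fin n → ℝ) : ℝ := (⨆ v, f v) - (⨅ v, f v)

/-- the `ε`-consensus time, the least `t` with `osc (f_t) ≤ ε` (`⊤` if there is none) -/
noncomputable def consensusTime (p : ℝ) (G : SimpleGraph (Fin n)) (f₀ : Fin n → ℝ) (ε : ℝ)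
    (ω : ℕ → Fin n) : ℕ∞ :=
  ⨅ (t : ℕ) (_ : osc (run p G f₀ ω t) ≤ ε), (t : ℕ∞)

/-- the law of a sequence of independent uniform vertices -/
noncomputable def law (n : ℕ) [NeZero n] : Measure (ℕ → Fin n) :=
  Measure.infinitePi fun _ : ℕ => uniformOn (Set.univ : Set (Fin n))

/-- the expected `ε`-consensus time -/
noncomputable def expectedTime [NeZero n] (p : ℝ) (G : SimpleGraph (Fin n)) (f₀ : Fin n → ℝ)
    (ε : ℝ) : ℝ≥0∞ :=
  ∫⁻ ω, ((consensusTime p G f₀ ε ω : ℕ∞) : ℝ≥0∞) ∂(law n)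

end Defs

/-! ### Minimizers -/

section Minimizer

variable {n : ℕ}

theorem energy_continuous (p : ℝ) (hp : 1 < p) (G : SimpleGraph (Fin n)) (f : Fin n → ℝ)
    (v : Fin n) : Continuous (energy p G f v) := by
  classical
  unfold energy
  apply continuous_finsetSum
  intro w _
  split_ifs
  · exact (continuous_id.sub continuous_const).abs.rpow_const (fun x => Or.inr (by linarith))
  · exact continuous_const

theorem argmin_spec (p : ℝ) (hp : 1 < p) (G : SimpleGraph (Fin n)) (f : Fin n → ℝ) (v u : Fin n)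
    (hu : G.Adj v u) (z : ℝ) : energy p G f v (argmin p G f v) ≤ energy p G f v z := by
  classical
  have hex : ∃ y, ∀ z, energy p G f v y ≤ energy p G f v z := by
    apply Continuous.exists_forall_le_of_isBounded (energy_continuous p hp G f v) (f u)
    set c := energy p G f v (f u) with hc
    have hc0 : 0 ≤ c := by
      rw [hc]
      unfold energy
      apply sum_nonneg
      intro w _
      split_ifs
      · positivity
      · exact le_rfl
    rw [Metric.isBounded_iff_subset_closedBall (f u)]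
    refine ⟨c ^ (1 / p), fun y hy => ?_⟩
    rw [Metric.mem_closedBall, Real.dist_eq]
    have h1 : |y - f u| ^ p ≤ c := by
      refine le_trans ?_ hy
      unfold energy
      have h2 := single_le_sum (f := fun w => if G.Adj v w then |y - f w| ^ p else 0)
        (fun w _ => by
          split_ifs
          · positivity
          · exact le_rfl) (mem_univ u)
      simp only [hu, if_true] at h2
      exact h2
    calc |y - f u| = (|y - f u| ^ p) ^ (1 / p) := by
          rw [← Real.rpow_mul (abs_nonneg _), mul_one_div_cancel (by linarith), Real.rpow_one]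
      _ ≤ c ^ (1 / p) := Real.rpow_le_rpow (by positivity) h1 (by positivity)
  exact Classical.epsilon_spec hex z

/-- odd power function -/
noncomputable def sp (p u : ℝ) : ℝ := |u| ^ (p - 2) * u

open Classical in
/-- first order condition -/
theorem first_order (p : ℝ) (hp : 1 < p) (G : SimpleGraph (Fin n)) (f : Fin n → ℝ) (v u : Fin n)
    (hu : G.Adj v u) : ∑ w, (if G.Adj v w then sp p (argmin p G f v - f w) else 0) = 0 := by
  set y := argmin p G f v with hy
  have hmin : IsLocalMin (energy p G f v) y :=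
    Filter.Eventually.of_forall (fun z => argmin_spec p hp G f v u hu z)
  have hder : HasDerivAt (energy p G f v)
      (∑ w, (if G.Adj v w then p * |y - f w| ^ (p - 2) * (y - f w) else 0)) y := by
    unfold energy
    apply HasDerivAt.fun_sum
    intro w _
    split_ifs
    · have h1 := (hasDerivAt_abs_rpow (y - f w) hp).comp y ((hasDerivAt_id y).sub_const (f w))
      rw [mul_one] at h1
      exact h1
    · exact hasDerivAt_const _ _
  have h0 := hmin.hasDerivAt_eq_zero hder
  have h2 : ∑ w, (if G.Adj v w then p * |y - f w| ^ (p - 2) * (y - f w) else 0) =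
      p * ∑ w, (if G.Adj v w then sp p (y - f w) else 0) := by
    rw [mul_sum]
    apply sum_congr rfl
    intro w _
    unfold sp
    split_ifs <;> ring
  rw [h2] at h0
  rcases mul_eq_zero.mp h0 with h | h
  · linarith
  · exact h

theorem sp_two (u : ℝ) : sp 2 u = u := by unfold sp; simp

theorem sp_neg (p u : ℝ) : sp p (-u) = - sp p u := by unfold sp; rw [abs_neg]; ring

theorem sp_pos_eq {p u : ℝ} (hu : 0 < u) : sp p u = u ^ (p - 1) := by
  unfold sp
  rw [abs_of_pos hu, ← Real.rpow_add_one hu.ne']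
  congr 1
  ring

theorem sp_pos {p u : ℝ} (hu : 0 < u) : 0 < sp p u := by
  rw [sp_pos_eq hu]; positivity

theorem sp_le_one {p u : ℝ} (hp : 1 < p) (hu : u ≤ 1) : sp p u ≤ 1 := by
  rcases lt_trichotomy u 0 with h | h | h
  · have h1 := sp_pos (p := p) (u := -u) (by linarith)
    rw [sp_neg] at h1
    linarith
  · subst h
    unfold sp
    simp
  · rw [sp_pos_eq h]
    exact Real.rpow_le_one h.le hu (by linarith)

/-- the small parameter -/
noncomputable def eta (p : ℝ) : ℝ := (1 / 2 : ℝ) ^ (1 / (p - 1))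

theorem eta_pos (p : ℝ) : 0 < eta p := by unfold eta; positivity

theorem half_lt_sp {p u : ℝ} (hp : 1 < p) (hu : eta p < u) : 1 / 2 < sp p u := by
  have h0 := eta_pos p
  rw [sp_pos_eq (h0.trans hu)]
  have h1 : eta p ^ (p - 1) = 1 / 2 := by
    unfold eta
    rw [← Real.rpow_mul (by norm_num), one_div_mul_cancel (by linarith), Real.rpow_one]
  calc (1 / 2 : ℝ) = eta p ^ (p - 1) := h1.symm
    _ < u ^ (p - 1) := Real.rpow_lt_rpow h0.le hu (by linarith)

/-- one-sided median estimates for three neighbours -/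
theorem three_upper {p y u₁ u₂ u₃ X : ℝ} (hp : 1 < p)
    (h : sp p (y - u₁) + sp p (y - u₂) + sp p (y - u₃) = 0)
    (h1 : u₁ ≤ X) (h2 : u₂ ≤ X) (h3 : u₃ - y ≤ 1) : y ≤ X + eta p := by
  by_contra hcon
  rw [not_le] at hcon
  have e1 := half_lt_sp hp (show eta p < y - u₁ by linarith)
  have e2 := half_lt_sp hp (show eta p < y - u₂ by linarith)
  have e3 := sp_le_one (p := p) (u := u₃ - y) hp h3
  rw [show u₃ - y = -(y - u₃) by ring, sp_neg] at e3
  linarith

theorem three_lower {p y u₁ u₂ u₃ X : ℝ} (hp : 1 < p)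
    (h : sp p (y - u₁) + sp p (y - u₂) + sp p (y - u₃) = 0)
    (h1 : X ≤ u₁) (h2 : X ≤ u₂) (h3 : y - u₃ ≤ 1) : X - eta p ≤ y := by
  have h4 : sp p (-y - -u₁) + sp p (-y - -u₂) + sp p (-y - -u₃) = 0 := by
    rw [show -y - -u₁ = -(y - u₁) by ring, show -y - -u₂ = -(y - u₂) by ring,
      show -y - -u₃ = -(y - u₃) by ring, sp_neg, sp_neg, sp_neg]
    linarith
  have := three_upper (X := -X) hp h4 (by linarith) (by linarith) (by linarith)
  linarith

/-- the minimizer stays in the range of the profile -/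
theorem three_range {p y u₁ u₂ u₃ : ℝ}
    (h : sp p (y - u₁) + sp p (y - u₂) + sp p (y - u₃) = 0)
    (h1 : 0 ≤ u₁ ∧ u₁ ≤ 1) (h2 : 0 ≤ u₂ ∧ u₂ ≤ 1) (h3 : 0 ≤ u₃ ∧ u₃ ≤ 1) : 0 ≤ y ∧ y ≤ 1 := by
  constructor
  · by_contra hcon
    rw [not_le] at hcon
    have e1 := sp_pos (p := p) (show 0 < u₁ - y by linarith)
    have e2 := sp_pos (p := p) (show 0 < u₂ - y by linarith)
    have e3 := sp_pos (p := p) (show 0 < u₃ - y by linarith)
    rw [show u₁ - y = -(y - u₁) by ring, sp_neg] at e1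
    rw [show u₂ - y = -(y - u₂) by ring, sp_neg] at e2
    rw [show u₃ - y = -(y - u₃) by ring, sp_neg] at e3
    linarith
  · by_contra hcon
    rw [not_le] at hcon
    have e1 := sp_pos (p := p) (show 0 < y - u₁ by linarith)
    have e2 := sp_pos (p := p) (show 0 < y - u₂ by linarith)
    have e3 := sp_pos (p := p) (show 0 < y - u₃ by linarith)
    linarith

end Minimizer

/-! ### The complete graph on four vertices -/

section K4

/-- first order condition on `K₄`, for an enumeration `σ` of the vertices -/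
theorem first_order_four (p : ℝ) (hp : 1 < p) (f : Fin 4 → ℝ) (v a b c : Fin 4)
    (hab : a ≠ b) (hac : a ≠ c) (hbc : b ≠ c) (hva : v ≠ a) (hvb : v ≠ b) (hvc : v ≠ c) :
    sp p (argmin p ⊤ f v - f a) + sp p (argmin p ⊤ f v - f b) + sp p (argmin p ⊤ f v - f c) = 0 := by
  classical
  have h := first_order p hp (⊤ : SimpleGraph (Fin 4)) f v a (by simpa using hva)
  simp only [SimpleGraph.top_adj] at h
  have huniv : (univ : Finset (Fin 4)) = {v, a, b, c} := by
    symm
    rw [← Finset.card_eq_iff_eq_univ]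
    rw [card_insert_of_notMem, card_insert_of_notMem, card_insert_of_notMem, card_singleton]
    · rfl
    · simpa using hbc
    · simp [hab, hac]
    · simp [hva, hvb, hvc]
  rw [huniv, sum_insert, sum_insert, sum_insert, sum_singleton] at h
  · simp only [ne_eq, not_true_eq_false, if_false, hva, hvb, hvc, not_false_eq_true, if_true] at h
    linarith
  · simpa using hbc
  · simp [hab, hac]
  · simp [hva, hvb, hvc]

theorem osc_le_iff (f : Fin 4 → ℝ) (ε : ℝ) : osc f ≤ ε ↔ ∀ v w, f v - f w ≤ ε := by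
  have hb1 : BddAbove (Set.range f) := Set.finite_range f |>.bddAbove
  have hb2 : BddBelow (Set.range f) := Set.finite_range f |>.bddBelow
  unfold osc
  constructor
  · intro h v w
    have h1 := le_ciSup hb1 v
    have h2 := ciInf_le hb2 w
    linarith
  · intro h
    have h1 : ∀ w, (⨆ v, f v) ≤ ε + f w := fun w => ciSup_le (fun v => by linarith [h v w])
    have h2 : (⨆ v, f v) - ε ≤ ⨅ w, f w := le_ciInf (fun w => by linarith [h1 w])
    linarith

/-- three well-chosen updates lead to consensus up to `4 η` -/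
theorem good_triple (p : ℝ) (hp : 1 < p) (f : Fin 4 → ℝ) (hf : ∀ v, 0 ≤ f v ∧ f v ≤ 1) :
    ∃ v₁ v₂ v₃ : Fin 4, ∀ f₁ f₂ f₃ : Fin 4 → ℝ,
      f₁ = Function.update f v₁ (argmin p ⊤ f v₁) →
      f₂ = Function.update f₁ v₂ (argmin p ⊤ f₁ v₂) →
      f₃ = Function.update f₂ v₃ (argmin p ⊤ f₂ v₃) → osc f₃ ≤ 4 * eta p := by
  -- sort the values
  set σ := Tuple.sort f with hσ
  have hmono := Tuple.monotone_sort f
  set a := σ 0 with ha
  set b := σ 1 with hb
  set c := σ 2 with hc
  set d := σ 3 with hd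
  have hab : a ≠ b := fun h => by simpa using σ.injective h
  have hac : a ≠ c := fun h => by simpa using σ.injective h
  have had : a ≠ d := fun h => by simpa using σ.injective h
  have hbc : b ≠ c := fun h => by simpa using σ.injective h
  have hbd : b ≠ d := fun h => by simpa using σ.injective h
  have hcd : c ≠ d := fun h => by simpa using σ.injective h
  have m1 : f a ≤ f b := hmono (show (0 : Fin 4) ≤ 1 by decide)
  have m2 : f b ≤ f c := hmono (show (1 : Fin 4) ≤ 2 by decide)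
  have heta := eta_pos p
  refine ⟨d, a, c, ?_⟩
  intro f₁ f₂ f₃ h1 h2 h3
  -- first update
  have q1 := first_order_four p hp f d a b c hab hac hbc had.symm hbd.symm hcd.symm
  have e1a : f₁ a = f a := by rw [h1, Function.update_of_ne had]
  have e1b : f₁ b = f b := by rw [h1, Function.update_of_ne hbd]
  have e1c : f₁ c = f c := by rw [h1, Function.update_of_ne hcd]
  have e1d : f₁ d = argmin p ⊤ f d := by rw [h1, Function.update_self]
  rw [← e1d] at q1
  have r1 := three_range q1 (hf a) (hf b) (hf c)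
  have u1 : f₁ d ≤ f b + eta p := three_upper hp q1 m1 le_rfl (by linarith [(hf c).2])
  have l1 : f b - eta p ≤ f₁ d := by
    have q1' : sp p (f₁ d - f b) + sp p (f₁ d - f c) + sp p (f₁ d - f a) = 0 := by linarith
    exact three_lower hp q1' le_rfl m2 (by linarith [(hf a).1])
  -- second update
  have q2 := first_order_four p hp f₁ a b c d hbc hbd hcd hab hac had
  have e2a : f₂ a = argmin p ⊤ f₁ a := by rw [h2, Function.update_self]
  have e2b : f₂ b = f b := by rw [h2, Function.update_of_ne hab.symm, e1b]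
  have e2d : f₂ d = f₁ d := by rw [h2, Function.update_of_ne had.symm]
  have e2c : f₂ c = f c := by rw [h2, Function.update_of_ne hac.symm, e1c]
  rw [← e2a, e1b, e1c] at q2
  have r2 := three_range q2 (hf b) (hf c) r1
  have u2 : f₂ a ≤ (f b + eta p) + eta p := by
    have q2' : sp p (f₂ a - f b) + sp p (f₂ a - f₁ d) + sp p (f₂ a - f c) = 0 := by linarith
    exact three_upper hp q2' (by linarith) u1 (by linarith [(hf c).2])
  have l2 : (f b - eta p) - eta p ≤ f₂ a :=
    three_lower hp q2 (by linarith) (by linarith) (by linarith [r1.1])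
  -- third update
  have q3 := first_order_four p hp f₂ c a b d hab had hbd hac.symm hbc.symm hcd
  have e3c : f₃ c = argmin p ⊤ f₂ c := by rw [h3, Function.update_self]
  have e3a : f₃ a = f₂ a := by rw [h3, Function.update_of_ne hac]
  have e3b : f₃ b = f b := by rw [h3, Function.update_of_ne hbc, e2b]
  have e3d : f₃ d = f₁ d := by rw [h3, Function.update_of_ne hcd.symm, e2d]
  rw [← e3c, e2b, e2d] at q3
  have r3 := three_range q3 r2 (hf b) r1
  have u3 : f₃ c ≤ (f b + eta p) + eta p := by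
    have q3' : sp p (f₃ c - f b) + sp p (f₃ c - f₁ d) + sp p (f₃ c - f₂ a) = 0 := by linarith
    exact three_upper hp q3' (by linarith) u1 (by linarith [r2.2])
  have l3 : (f b - eta p) - eta p ≤ f₃ c := by
    have q3' : sp p (f₃ c - f b) + sp p (f₃ c - f₁ d) + sp p (f₃ c - f₂ a) = 0 := by linarith
    exact three_lower hp q3' (by linarith) l1 (by linarith [r2.1])
  have hall : ∀ v : Fin 4, v = a ∨ v = b ∨ v = c ∨ v = d := by
    intro v
    obtain ⟨i, rfl⟩ := σ.surjective v
    fin_cases i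
    · left; rfl
    · right; left; rfl
    · right; right; left; rfl
    · right; right; right; rfl
  have hrange : ∀ v, f b - 2 * eta p ≤ f₃ v ∧ f₃ v ≤ f b + 2 * eta p := by
    intro v
    rcases hall v with h | h | h | h
    · rw [h, e3a]; constructor <;> linarith
    · rw [h, e3b]; constructor <;> linarith
    · rw [h]; constructor <;> linarith
    · rw [h, e3d]; constructor <;> linarith
  rw [osc_le_iff]
  intro v w
  linarith [(hrange v).2, (hrange w).1]

theorem run_range (p : ℝ) (hp : 1 < p) (f₀ : Fin 4 → ℝ) (hf : ∀ v, 0 ≤ f₀ v ∧ f₀ v ≤ 1)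
    (ω : ℕ → Fin 4) (t : ℕ) : ∀ v, 0 ≤ run p ⊤ f₀ ω t v ∧ run p ⊤ f₀ ω t v ≤ 1 := by
  induction t with
  | zero => exact hf
  | succ t ih =>
    intro v
    show 0 ≤ Function.update (run p ⊤ f₀ ω t) (ω t) (argmin p ⊤ (run p ⊤ f₀ ω t) (ω t)) v ∧
      Function.update (run p ⊤ f₀ ω t) (ω t) (argmin p ⊤ (run p ⊤ f₀ ω t) (ω t)) v ≤ 1
    by_cases h : v = ω t
    · subst h
      rw [Function.update_self]
      have hex : ∀ u : Fin 4, ∃ a b c : Fin 4, a ≠ b ∧ a ≠ c ∧ b ≠ c ∧ u ≠ a ∧ u ≠ b ∧ u ≠ c := by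
        decide
      obtain ⟨a, b, c, hab, hac, hbc, hva, hvb, hvc⟩ := hex (ω t)
      exact three_range (first_order_four p hp (run p ⊤ f₀ ω t) (ω t) a b c hab hac hbc hva hvb hvc)
        (ih a) (ih b) (ih c)
    · rw [Function.update_of_ne h]
      exact ih v

/-- run with exponent two -/
theorem argmin_two (f : Fin 4 → ℝ) (v a b c : Fin 4)
    (hab : a ≠ b) (hac : a ≠ c) (hbc : b ≠ c) (hva : v ≠ a) (hvb : v ≠ b) (hvc : v ≠ c) :
    argmin 2 ⊤ f v = (f a + f b + f c) / 3 := by
  have h := first_order_four 2 (by norm_num) f v a b c hab hac hbc hva hvb hvc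
  rw [sp_two, sp_two, sp_two] at h
  linarith

/-- initial profile -/
def start : Fin 4 → ℝ := fun v => if v = 0 then 1 else 0

theorem start_range (v : Fin 4) : 0 ≤ start v ∧ start v ≤ 1 := by
  unfold start
  split_ifs <;> norm_num

/-- If vertex `0` is not updated first, then the profile keeps a vertex with strictly largest
`3`-adic denominator. -/
theorem invariant (ω : ℕ → Fin 4) (h0 : ω 0 ≠ 0) (t : ℕ) :
    ∃ j : ℕ, j ≤ t + 1 ∧ ∃ z : Fin 4 → ℤ, ∃ u : Fin 4,
      (∀ v, run 2 ⊤ start ω (t + 1) v = z v / 3 ^ j) ∧ (∀ v, v ≠ u → (3 : ℤ) ∣ z v) ∧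
      ¬ (3 : ℤ) ∣ z u ∧
      ∀ a b c : Fin 4, a ≠ b → a ≠ c → b ≠ c → u ≠ a → u ≠ b → u ≠ c →
        run 2 ⊤ start ω (t + 1) u = (run 2 ⊤ start ω (t + 1) a + run 2 ⊤ start ω (t + 1) b +
          run 2 ⊤ start ω (t + 1) c) / 3 := by
  have hex : ∀ u : Fin 4, ∃ a b c : Fin 4, a ≠ b ∧ a ≠ c ∧ b ≠ c ∧ u ≠ a ∧ u ≠ b ∧ u ≠ c := by
    decide
  induction t with
  | zero =>
    have hrun : run 2 ⊤ start ω (0 + 1) = Function.update start (ω 0) (argmin 2 ⊤ start (ω 0)) := rfl
    have hval : argmin 2 ⊤ start (ω 0) = 1 / 3 := by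
      have hex' : ∀ u : Fin 4, u ≠ 0 → ∃ b c : Fin 4, (0 : Fin 4) ≠ b ∧ (0 : Fin 4) ≠ c ∧ b ≠ c ∧
          u ≠ b ∧ u ≠ c := by decide
      obtain ⟨b, c, h1, h2, h3, h4, h5⟩ := hex' (ω 0) h0
      rw [argmin_two start (ω 0) 0 b c h1 h2 h3 h0 h4 h5]
      unfold start
      rw [if_pos rfl, if_neg h1.symm, if_neg h2.symm]
      norm_num
    refine ⟨1, le_rfl, fun v => if v = ω 0 then 1 else if v = 0 then 3 else 0, ω 0, ?_, ?_, ?_, ?_⟩
    · intro v
      rw [hrun, hval]
      beta_reduce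
      by_cases h : v = ω 0
      · subst h
        rw [Function.update_self, if_pos rfl]
        norm_num
      · rw [Function.update_of_ne h, if_neg h]
        unfold start
        split_ifs <;> norm_num
    · intro v hv
      beta_reduce
      rw [if_neg hv]
      split_ifs
      · exact dvd_refl _
      · exact dvd_zero _
    · beta_reduce
      rw [if_pos rfl]
      norm_num
    · intro a b c hab hac hbc hua hub huc
      rw [hrun, Function.update_self, Function.update_of_ne hua.symm, Function.update_of_ne hub.symm,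
        Function.update_of_ne huc.symm]
      exact argmin_two start (ω 0) a b c hab hac hbc hua hub huc
  | succ t ih =>
    obtain ⟨j, hj, z, u, hz, hdvd, hndvd, hmean⟩ := ih
    have hrun : run 2 ⊤ start ω (t + 1 + 1) = Function.update (run 2 ⊤ start ω (t + 1)) (ω (t + 1))
      (argmin 2 ⊤ (run 2 ⊤ start ω (t + 1)) (ω (t + 1))) := rfl
    set g := run 2 ⊤ start ω (t + 1) with hg
    by_cases hu : ω (t + 1) = u
    · -- nothing changes
      obtain ⟨a, b, c, hab, hac, hbc, hua, hub, huc⟩ := hex u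
      have h1 : argmin 2 ⊤ g u = g u := by
        rw [argmin_two g u a b c hab hac hbc hua hub huc]
        exact (hmean a b c hab hac hbc hua hub huc).symm
      have h2 : run 2 ⊤ start ω (t + 1 + 1) = g := by
        rw [hrun, hu, h1, Function.update_eq_self]
      refine ⟨j, by omega, z, u, ?_, hdvd, hndvd, ?_⟩
      · intro v; rw [h2]; exact hz v
      · intro a b c hab hac hbc hua hub huc
        rw [h2]
        exact hmean a b c hab hac hbc hua hub huc
    · -- a new vertex gets a larger denominator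
      set v₀ := ω (t + 1) with hv₀
      have hex2 : ∀ v u : Fin 4, v ≠ u → ∃ b c : Fin 4, u ≠ b ∧ u ≠ c ∧ b ≠ c ∧ v ≠ b ∧ v ≠ c := by
        decide
      obtain ⟨b, c, h1, h2, h3, h4, h5⟩ := hex2 v₀ u hu
      have hval : argmin 2 ⊤ g v₀ = (z u + z b + z c : ℤ) / 3 ^ (j + 1) := by
        rw [argmin_two g v₀ u b c h1 h2 h3 hu h4 h5, hz u, hz b, hz c, pow_succ]
        push_cast
        field_simp
      refine ⟨j + 1, by omega, fun v => if v = v₀ then z u + z b + z c else 3 * z v, v₀,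
        ?_, ?_, ?_, ?_⟩
      · intro v
        rw [hrun]
        beta_reduce
        by_cases h : v = v₀
        · rw [h, Function.update_self, if_pos rfl, hval]
        · rw [Function.update_of_ne h, if_neg h, hz v, pow_succ]
          push_cast
          field_simp
      · intro v hv
        beta_reduce
        rw [if_neg hv]
        exact dvd_mul_right _ _
      · beta_reduce
        rw [if_pos rfl]
        intro h
        apply hndvd
        have hb := hdvd b h1.symm
        have hc := hdvd c h2.symm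
        have h6 : z u = (z u + z b + z c) - z b - z c := by ring
        rw [h6]
        exact dvd_sub (dvd_sub h hb) hc
      · intro a b c hab hac hbc hua hub huc
        rw [hrun, Function.update_self, Function.update_of_ne hua.symm,
          Function.update_of_ne hub.symm, Function.update_of_ne huc.symm]
        exact argmin_two g v₀ a b c hab hac hbc hua hub huc

theorem osc_lower (ω : ℕ → Fin 4) (h0 : ω 0 ≠ 0) (t : ℕ) :
    1 / 3 ^ t ≤ osc (run 2 ⊤ start ω t) := by
  by_contra hcon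
  rw [not_le] at hcon
  have h1 := (osc_le_iff (run 2 ⊤ start ω t) _).mp le_rfl
  rcases Nat.eq_zero_or_pos t with ht | ht
  · subst ht
    have h2 := h1 0 1
    have h3 : run 2 ⊤ start ω 0 = start := rfl
    rw [h3] at h2 hcon
    have h4 : start 0 = 1 := by simp [start]
    have h5 : start 1 = 0 := by simp [start]
    rw [h4, h5] at h2
    rw [pow_zero] at hcon
    linarith
  · obtain ⟨s, rfl⟩ := Nat.exists_eq_succ_of_ne_zero (by omega : t ≠ 0)
    obtain ⟨j, hj, z, u, hz, hdvd, hndvd, -⟩ := invariant ω h0 s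
    have hex : ∀ u : Fin 4, ∃ a : Fin 4, a ≠ u := by decide
    obtain ⟨a, ha⟩ := hex u
    have hne : z u - z a ≠ 0 := by
      intro h
      apply hndvd
      have : z u = z a := by omega
      rw [this]
      exact hdvd a ha
    have habs : (1 : ℝ) ≤ |((z u - z a : ℤ) : ℝ)| := by
      rw [← Int.cast_abs]
      exact_mod_cast Int.one_le_abs hne
    have h2 := h1 u a
    have h3 := h1 a u
    simp only [Nat.succ_eq_add_one] at *
    rw [hz u, hz a] at h2 h3
    have h4 : |((z u - z a : ℤ) : ℝ)| / 3 ^ j ≤ osc (run 2 ⊤ start ω (s + 1)) := by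
      rw [div_le_iff₀ (by positivity), abs_le]
      have e : (0 : ℝ) < 3 ^ j := by positivity
      have h5 : ((z u : ℝ) / 3 ^ j - z a / 3 ^ j) * 3 ^ j = z u - z a := by field_simp
      have h6 : ((z a : ℝ) / 3 ^ j - z u / 3 ^ j) * 3 ^ j = z a - z u := by field_simp
      have h7 := mul_le_mul_of_nonneg_right h2 e.le
      have h8 := mul_le_mul_of_nonneg_right h3 e.le
      push_cast
      constructor <;> linarith
    have h5 : (1 : ℝ) / 3 ^ (s + 1) ≤ |((z u - z a : ℤ) : ℝ)| / 3 ^ j := by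
      apply div_le_div₀ (abs_nonneg _) habs (by positivity)
      exact pow_le_pow_right₀ (by norm_num) hj
    linarith

end K4

/-! ### Probability -/

section Prob

variable {n : ℕ} [NeZero n]

instance : IsProbabilityMeasure (law n) := by unfold law; infer_instance

/-- the first `t` updates -/
def first (t : ℕ) (ω : ℕ → Fin n) : Fin t → Fin n := fun i => ω i

theorem measurable_first (t : ℕ) : Measurable (first (n := n) t) :=
  measurable_pi_lambda _ (fun i => measurable_pi_apply (i : ℕ))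

/-- a predicate that depends on the first `t` updates only -/
def DependsOnFirst {α : Type*} (t : ℕ) (P : (ℕ → Fin n) → α) : Prop :=
  ∀ ω ω' : ℕ → Fin n, (∀ i < t, ω i = ω' i) → P ω = P ω'

/-- extension of a word -/
def ext (t : ℕ) (s : Fin t → Fin n) : ℕ → Fin n := fun i => if h : i < t then s ⟨i, h⟩ else 0

theorem ext_first (t : ℕ) (ω : ℕ → Fin n) : ∀ i < t, ext t (first t ω) i = ω i := by
  intro i hi
  simp [ext, first, hi]

theorem set_eq_preimage (t : ℕ) (P : (ℕ → Fin n) → Prop) (hP : DependsOnFirst t P) :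
    {ω | P ω} = first t ⁻¹' {s | P (ext t s)} := by
  ext ω
  simp only [Set.mem_ofPred_eq, Set.mem_preimage]
  rw [hP (ext t (first t ω)) ω (ext_first t ω)]

theorem measurableSet_of_depends (t : ℕ) (P : (ℕ → Fin n) → Prop) (hP : DependsOnFirst t P) :
    MeasurableSet {ω | P ω} := by
  rw [set_eq_preimage t P hP]
  exact measurable_first t (Set.toFinite _).measurableSet

theorem uniform_singleton (x : Fin n) : uniformOn (Set.univ : Set (Fin n)) {x} = (n : ℝ≥0∞)⁻¹ := by
  rw [uniformOn_univ, Measure.count_singleton, Fintype.card_fin, one_div]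

theorem cylinder_measure (t : ℕ) (s : ℕ → Fin n) :
    law n {ω | ∀ i < t, ω i = s i} = (n : ℝ≥0∞)⁻¹ ^ t := by
  have h1 : {ω : ℕ → Fin n | ∀ i < t, ω i = s i} = Set.pi (range t) (fun i => {s i}) := by
    ext ω
    simp [Set.mem_pi]
  rw [h1]
  unfold law
  rw [Measure.infinitePi_pi _ (fun i _ => measurableSet_singleton _)]
  simp only [uniform_singleton, prod_const, card_range]

theorem measurableSet_coord {n : ℕ} (t : ℕ) (x : Fin n) :
    MeasurableSet {ω : ℕ → Fin n | ω t = x} :=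
  measurableSet_eq_fun (measurable_pi_apply t) measurable_const

/-- a fresh update is independent of the past -/
theorem fresh (t : ℕ) (P : (ℕ → Fin n) → Prop) (hP : DependsOnFirst t P) (x : Fin n) :
    law n {ω | P ω ∧ ω t = x} = (n : ℝ≥0∞)⁻¹ * law n {ω | P ω} := by
  classical
  have hpart : ∀ A : Set (ℕ → Fin n), MeasurableSet A →
      law n A = ∑ s : Fin t → Fin n, law n (A ∩ first t ⁻¹' {s}) := by
    intro A hA
    have h1 : A = ⋃ s ∈ (univ : Finset (Fin t → Fin n)), (A ∩ first t ⁻¹' {s}) := by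
      ext ω
      simp
    conv_lhs => rw [h1]
    rw [measure_biUnion_finset]
    · intro s _ s' _ hss
      rw [Function.onFun, Set.disjoint_left]
      rintro ω ⟨-, h2⟩ ⟨-, h3⟩
      exact hss (h2.symm.trans h3)
    · intro s _
      exact hA.inter (measurable_first t (measurableSet_singleton s))
  have hx : MeasurableSet {ω : ℕ → Fin n | ω t = x} := measurableSet_coord t x
  have hPm := measurableSet_of_depends t P hP
  have hcyl : ∀ s : Fin t → Fin n, first t ⁻¹' {s} = {ω | ∀ i < t, ω i = ext t s i} := by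
    intro s
    ext ω
    simp only [Set.mem_preimage, Set.mem_singleton_iff, Set.mem_ofPred_eq]
    constructor
    · rintro rfl i hi
      exact (ext_first t ω i hi).symm
    · intro h
      funext i
      have := h i i.isLt
      simp [ext] at this
      exact this
  rw [hpart {ω | P ω ∧ ω t = x} (hPm.inter hx), hpart {ω | P ω} hPm, mul_sum]
  apply sum_congr rfl
  intro s _
  by_cases h : P (ext t s)
  · have h1 : {ω | P ω} ∩ first t ⁻¹' {s} = {ω | ∀ i < t, ω i = ext t s i} := by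
      rw [hcyl]
      ext ω
      simp only [Set.mem_inter_iff, Set.mem_ofPred_eq]
      constructor
      · exact fun h2 => h2.2
      · intro h2
        exact ⟨by rw [hP ω (ext t s) h2]; exact h, h2⟩
    have h2 : {ω | P ω ∧ ω t = x} ∩ first t ⁻¹' {s} =
        {ω | ∀ i < t + 1, ω i = (Function.update (ext t s) t x) i} := by
      rw [hcyl]
      ext ω
      simp only [Set.mem_inter_iff, Set.mem_ofPred_eq]
      constructor
      · rintro ⟨⟨-, h3⟩, h4⟩ i hi
        rcases Nat.lt_succ_iff_lt_or_eq.mp hi with h5 | h5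
        · rw [Function.update_of_ne (by omega)]
          exact h4 i h5
        · subst h5
          rw [Function.update_self]
          exact h3
      · intro h3
        have h4 : ∀ i < t, ω i = ext t s i := by
          intro i hi
          have := h3 i (by omega)
          rwa [Function.update_of_ne (by omega)] at this
        refine ⟨⟨by rw [hP ω (ext t s) h4]; exact h, ?_⟩, h4⟩
        have := h3 t (by omega)
        rwa [Function.update_self] at this
    rw [h1, h2, cylinder_measure, cylinder_measure, pow_succ, mul_comm]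
  · have h1 : {ω | P ω} ∩ first t ⁻¹' {s} = ∅ := by
      rw [hcyl]
      ext ω
      simp only [Set.mem_inter_iff, Set.mem_ofPred_eq, Set.mem_empty_iff_false, iff_false, not_and]
      intro h2 h3
      rw [hP ω (ext t s) h3] at h2
      exact h h2
    have h2 : {ω | P ω ∧ ω t = x} ∩ first t ⁻¹' {s} = ∅ := by
      rw [Set.eq_empty_iff_forall_notMem] at h1 ⊢
      rintro ω ⟨h3, h4⟩
      exact h1 ω ⟨h3.1, h4⟩
    rw [h1, h2, measure_empty, mul_zero]

/-- a fresh update hits a vertex determined by the past with probability `1 / n` -/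
theorem fresh_fun (t : ℕ) (P : (ℕ → Fin n) → Prop) (hP : DependsOnFirst t P)
    (v : (ℕ → Fin n) → Fin n) (hv : DependsOnFirst t v) :
    law n {ω | P ω ∧ ω t = v ω} = (n : ℝ≥0∞)⁻¹ * law n {ω | P ω} := by
  classical
  have hPx : ∀ x, DependsOnFirst t (fun ω => P ω ∧ v ω = x) := by
    intro x ω ω' h
    simp only [hP ω ω' h, hv ω ω' h]
  have h1 : {ω | P ω ∧ ω t = v ω} = ⋃ x ∈ (univ : Finset (Fin n)), {ω | (P ω ∧ v ω = x) ∧ ω t = x} := by
    ext ω
    simp only [Set.mem_ofPred_eq, mem_univ, Set.iUnion_true, Set.mem_iUnion]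
    constructor
    · rintro ⟨h2, h3⟩
      exact ⟨v ω, ⟨h2, rfl⟩, h3⟩
    · rintro ⟨x, ⟨h2, h3⟩, h4⟩
      exact ⟨h2, by rw [h3, h4]⟩
  have h2 : {ω | P ω} = ⋃ x ∈ (univ : Finset (Fin n)), {ω | P ω ∧ v ω = x} := by
    ext ω
    simp
  rw [h1, measure_biUnion_finset, h2, measure_biUnion_finset, mul_sum]
  · apply sum_congr rfl
    intro x _
    exact fresh t _ (hPx x) x
  · intro x _ x' _ hxx
    rw [Function.onFun, Set.disjoint_left]
    rintro ω ⟨-, h3⟩ ⟨-, h4⟩
    exact hxx (h3.symm.trans h4)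
  · intro x _
    exact measurableSet_of_depends t _ (hPx x)
  · intro x _ x' _ hxx
    rw [Function.onFun, Set.disjoint_left]
    rintro ω ⟨⟨-, h3⟩, -⟩ ⟨⟨-, h4⟩, -⟩
    exact hxx (h3.symm.trans h4)
  · intro x _
    exact (measurableSet_of_depends t _ (hPx x)).inter (measurableSet_coord t x)

theorem run_depends (p : ℝ) (G : SimpleGraph (Fin n)) (f₀ : Fin n → ℝ) (t : ℕ) :
    DependsOnFirst t (fun ω => run p G f₀ ω t) := by
  induction t with
  | zero => intro ω ω' _; rfl
  | succ t ih =>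
    intro ω ω' h
    have h1 : run p G f₀ ω t = run p G f₀ ω' t := ih ω ω' (fun i hi => h i (by omega))
    show Function.update (run p G f₀ ω t) (ω t) (argmin p G (run p G f₀ ω t) (ω t)) =
      Function.update (run p G f₀ ω' t) (ω' t) (argmin p G (run p G f₀ ω' t) (ω' t))
    rw [h1, h t (by omega)]

theorem DependsOnFirst.mono {α : Type*} {s t : ℕ} {P : (ℕ → Fin n) → α} (h : DependsOnFirst s P)
    (hst : s ≤ t) : DependsOnFirst t P :=
  fun ω ω' h' => h ω ω' (fun i hi => h' i (by omega))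

/-- the event that consensus is not reached up to time `t` -/
def late (p : ℝ) (G : SimpleGraph (Fin n)) (f₀ : Fin n → ℝ) (ε : ℝ) (t : ℕ) (ω : ℕ → Fin n) : Prop :=
  ∀ s ≤ t, ε < osc (run p G f₀ ω s)

theorem late_depends (p : ℝ) (G : SimpleGraph (Fin n)) (f₀ : Fin n → ℝ) (ε : ℝ) (t : ℕ) :
    DependsOnFirst t (late p G f₀ ε t) := by
  intro ω ω' h
  unfold late
  apply propext
  apply forall_congr'
  intro s
  apply imp_congr_right
  intro hs
  have h1 : run p G f₀ ω s = run p G f₀ ω' s :=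
    run_depends p G f₀ s ω ω' (fun i hi => h i (by omega))
  rw [h1]

open Classical in
theorem consensus_eq_tsum (p : ℝ) (G : SimpleGraph (Fin n)) (f₀ : Fin n → ℝ) (ε : ℝ)
    (ω : ℕ → Fin n) : ((consensusTime p G f₀ ε ω : ℕ∞) : ℝ≥0∞) =
      ∑' t : ℕ, {ω | late p G f₀ ε t ω}.indicator (fun _ => (1 : ℝ≥0∞)) ω := by
  by_cases h : ∃ t, osc (run p G f₀ ω t) ≤ ε
  · set T := Nat.find h with hT
    have hT1 : osc (run p G f₀ ω T) ≤ ε := Nat.find_spec h
    have hT2 : ∀ s < T, ε < osc (run p G f₀ ω s) := fun s hs => not_le.mp (Nat.find_min h hs)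
    have h1 : consensusTime p G f₀ ε ω = T := by
      unfold consensusTime
      apply le_antisymm
      · exact iInf₂_le T hT1
      · apply le_iInf₂
        intro t ht
        have : T ≤ t := Nat.find_min' h ht
        exact_mod_cast this
    rw [h1, tsum_eq_sum (s := range T)]
    · rw [sum_congr rfl (g := fun _ => (1 : ℝ≥0∞))]
      · simp
      · intro t ht
        rw [mem_range] at ht
        rw [Set.indicator_of_mem]
        intro s hs
        exact hT2 s (by omega)
    · intro t ht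
      rw [mem_range, not_lt] at ht
      rw [Set.indicator_of_notMem]
      intro h2
      exact absurd hT1 (not_le.mpr (h2 T ht))
  · push Not at h
    have h1 : consensusTime p G f₀ ε ω = ⊤ := by
      unfold consensusTime
      rw [iInf₂_eq_top]
      intro t ht
      exact absurd ht (not_le.mpr (h t))
    rw [h1]
    have h2 : ∀ t : ℕ, {ω | late p G f₀ ε t ω}.indicator (fun _ => (1 : ℝ≥0∞)) ω = 1 := by
      intro t
      rw [Set.indicator_of_mem]
      intro s _
      exact h s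
    simp only [h2]
    rw [ENNReal.tsum_const_eq_top_of_ne_zero one_ne_zero]
    rfl

theorem expected_eq_tsum (p : ℝ) (G : SimpleGraph (Fin n)) (f₀ : Fin n → ℝ) (ε : ℝ) :
    expectedTime p G f₀ ε = ∑' t : ℕ, law n {ω | late p G f₀ ε t ω} := by
  unfold expectedTime
  simp_rw [consensus_eq_tsum]
  rw [lintegral_tsum]
  · apply tsum_congr
    intro t
    rw [lintegral_indicator_const (measurableSet_of_depends t _ (late_depends p G f₀ ε t)), one_mul]
  · intro t
    exact (measurable_const.indicator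
      (measurableSet_of_depends t _ (late_depends p G f₀ ε t))).aemeasurable

end Prob

/-! ### The two bounds -/

section Bounds

theorem late_block (p : ℝ) (hp : 1 < p) (ε : ℝ) (hε : 4 * eta p ≤ ε) (f₀ : Fin 4 → ℝ)
    (hf : ∀ v, 0 ≤ f₀ v ∧ f₀ v ≤ 1) (t : ℕ) :
    law 4 {ω | late p ⊤ f₀ ε (t + 3) ω} ≤ (63 / 64 : ℝ≥0∞) * law 4 {ω | late p ⊤ f₀ ε t ω} := by
  classical
  -- the good triple as a function of the past
  have hgt : ∀ ω : ℕ → Fin 4, ∃ v₁ v₂ v₃ : Fin 4, ∀ f₁ f₂ f₃ : Fin 4 → ℝ,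
      f₁ = Function.update (run p ⊤ f₀ ω t) v₁ (argmin p ⊤ (run p ⊤ f₀ ω t) v₁) →
      f₂ = Function.update f₁ v₂ (argmin p ⊤ f₁ v₂) →
      f₃ = Function.update f₂ v₃ (argmin p ⊤ f₂ v₃) → osc f₃ ≤ 4 * eta p :=
    fun ω => good_triple p hp _ (run_range p hp f₀ hf ω t)
  -- choose it as a function of the profile
  have hch : ∃ V : (Fin 4 → ℝ) → Fin 4 × Fin 4 × Fin 4, ∀ ω : ℕ → Fin 4,
      ∀ f₁ f₂ f₃ : Fin 4 → ℝ,
      f₁ = Function.update (run p ⊤ f₀ ω t) (V (run p ⊤ f₀ ω t)).1
        (argmin p ⊤ (run p ⊤ f₀ ω t) (V (run p ⊤ f₀ ω t)).1) →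
      f₂ = Function.update f₁ (V (run p ⊤ f₀ ω t)).2.1 (argmin p ⊤ f₁ (V (run p ⊤ f₀ ω t)).2.1) →
      f₃ = Function.update f₂ (V (run p ⊤ f₀ ω t)).2.2
        (argmin p ⊤ f₂ (V (run p ⊤ f₀ ω t)).2.2) → osc f₃ ≤ 4 * eta p := by
    have : ∀ g : Fin 4 → ℝ, ∃ V : Fin 4 × Fin 4 × Fin 4, (∃ ω, run p ⊤ f₀ ω t = g) →
        ∀ f₁ f₂ f₃ : Fin 4 → ℝ, f₁ = Function.update g V.1 (argmin p ⊤ g V.1) →
        f₂ = Function.update f₁ V.2.1 (argmin p ⊤ f₁ V.2.1) →
        f₃ = Function.update f₂ V.2.2 (argmin p ⊤ f₂ V.2.2) → osc f₃ ≤ 4 * eta p := by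
      intro g
      by_cases hg : ∃ ω, run p ⊤ f₀ ω t = g
      · obtain ⟨ω, rfl⟩ := hg
        obtain ⟨v₁, v₂, v₃, h⟩ := hgt ω
        exact ⟨(v₁, v₂, v₃), fun _ => h⟩
      · exact ⟨(0, 0, 0), fun h => absurd h hg⟩
    choose V hV using this
    exact ⟨V, fun ω => hV _ ⟨ω, rfl⟩⟩
  obtain ⟨V, hV⟩ := hch
  set P := late p (⊤ : SimpleGraph (Fin 4)) f₀ ε t with hP
  have hPd : DependsOnFirst t P := late_depends p ⊤ f₀ ε t
  have hrd := run_depends p (⊤ : SimpleGraph (Fin 4)) f₀ t
  have hVd : DependsOnFirst t (fun ω => V (run p ⊤ f₀ ω t)) := by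
    intro ω ω' h
    have : run p ⊤ f₀ ω t = run p ⊤ f₀ ω' t := hrd ω ω' h
    simp only [this]
  set Q1 : (ℕ → Fin 4) → Prop := fun ω => P ω ∧ ω t = (V (run p ⊤ f₀ ω t)).1 with hQ1
  have hQ1d : DependsOnFirst (t + 1) Q1 := by
    intro ω ω' h
    have h1 : P ω = P ω' := hPd ω ω' (fun i hi => h i (by omega))
    have h2 : V (run p ⊤ f₀ ω t) = V (run p ⊤ f₀ ω' t) := hVd ω ω' (fun i hi => h i (by omega))
    simp only [hQ1, h1, h2, h t (by omega)]
  set Q2 : (ℕ → Fin 4) → Prop := fun ω => Q1 ω ∧ ω (t + 1) = (V (run p ⊤ f₀ ω t)).2.1 with hQ2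
  have hQ2d : DependsOnFirst (t + 1 + 1) Q2 := by
    intro ω ω' h
    have h1 : Q1 ω = Q1 ω' := hQ1d ω ω' (fun i hi => h i (by omega))
    have h2 : V (run p ⊤ f₀ ω t) = V (run p ⊤ f₀ ω' t) := hVd ω ω' (fun i hi => h i (by omega))
    simp only [hQ2, h1, h2, h (t + 1) (by omega)]
  set Q3 : (ℕ → Fin 4) → Prop := fun ω => Q2 ω ∧ ω (t + 1 + 1) = (V (run p ⊤ f₀ ω t)).2.2 with hQ3
  have hQ3d : DependsOnFirst (t + 3) Q3 := by
    intro ω ω' h
    have h1 : Q2 ω = Q2 ω' := hQ2d ω ω' (fun i hi => h i (by omega))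
    have h2 : V (run p ⊤ f₀ ω t) = V (run p ⊤ f₀ ω' t) := hVd ω ω' (fun i hi => h i (by omega))
    simp only [hQ3, h1, h2, h (t + 1 + 1) (by omega)]
  have e1 : law 4 {ω | Q1 ω} = ((4 : ℕ) : ℝ≥0∞)⁻¹ * law 4 {ω | P ω} :=
    fresh_fun t P hPd (fun ω => (V (run p ⊤ f₀ ω t)).1) (fun ω ω' h => by
      have := hVd ω ω' h
      simp only at this ⊢
      rw [this])
  have e2 : law 4 {ω | Q2 ω} = ((4 : ℕ) : ℝ≥0∞)⁻¹ * law 4 {ω | Q1 ω} :=
    fresh_fun (t + 1) Q1 hQ1d (fun ω => (V (run p ⊤ f₀ ω t)).2.1) (fun ω ω' h => by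
      have := hVd ω ω' (fun i hi => h i (by omega))
      simp only at this ⊢
      rw [this])
  have e3 : law 4 {ω | Q3 ω} = ((4 : ℕ) : ℝ≥0∞)⁻¹ * law 4 {ω | Q2 ω} :=
    fresh_fun (t + 1 + 1) Q2 hQ2d (fun ω => (V (run p ⊤ f₀ ω t)).2.2) (fun ω ω' h => by
      have := hVd ω ω' (fun i hi => h i (by omega))
      simp only at this ⊢
      rw [this])
  have hsub : {ω | late p (⊤ : SimpleGraph (Fin 4)) f₀ ε (t + 3) ω} ⊆ {ω | P ω} \ {ω | Q3 ω} := by
    intro ω hω
    refine ⟨fun s hs => hω s (by omega), ?_⟩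
    rintro ⟨⟨⟨-, h1⟩, h2⟩, h3⟩
    have h4 := hV ω (run p ⊤ f₀ ω (t + 1)) (run p ⊤ f₀ ω (t + 1 + 1)) (run p ⊤ f₀ ω (t + 1 + 1 + 1))
      (by rw [← h1]; rfl) (by rw [← h2]; rfl) (by rw [← h3]; rfl)
    have h5 := hω (t + 1 + 1 + 1) le_rfl
    linarith
  have hm3 := measurableSet_of_depends (t + 3) Q3 hQ3d
  have hsubQ : {ω | Q3 ω} ⊆ {ω | P ω} := fun ω h => h.1.1.1
  have hfin : law 4 {ω | P ω} ≠ ⊤ := measure_ne_top _ _
  calc law 4 {ω | late p (⊤ : SimpleGraph (Fin 4)) f₀ ε (t + 3) ω}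
      ≤ law 4 ({ω | P ω} \ {ω | Q3 ω}) := measure_mono hsub
    _ = law 4 {ω | P ω} - law 4 {ω | Q3 ω} :=
        measure_sdiff hsubQ hm3.nullMeasurableSet (measure_ne_top _ _)
    _ ≤ (63 / 64 : ℝ≥0∞) * law 4 {ω | P ω} := by
        rw [e3, e2, e1]
        rw [tsub_le_iff_right, ← mul_assoc, ← mul_assoc, ← add_mul]
        have h6 : (1 : ℝ≥0∞) ≤ 63 / 64 + ((4 : ℕ) : ℝ≥0∞)⁻¹ * ((4 : ℕ) : ℝ≥0∞)⁻¹ * ((4 : ℕ) : ℝ≥0∞)⁻¹ := by
          rw [← ENNReal.toReal_le_toReal ENNReal.one_ne_top, ENNReal.toReal_add]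
          · simp only [ENNReal.toReal_one, ENNReal.toReal_div, ENNReal.toReal_ofNat,
              ENNReal.toReal_mul, ENNReal.toReal_inv, ENNReal.toReal_natCast]
            norm_num
          · exact ENNReal.div_ne_top (by norm_num) (by norm_num)
          · refine ENNReal.mul_ne_top (ENNReal.mul_ne_top ?_ ?_) ?_ <;> simp
          · refine ENNReal.add_ne_top.mpr ⟨ENNReal.div_ne_top (by norm_num) (by norm_num), ?_⟩
            refine ENNReal.mul_ne_top (ENNReal.mul_ne_top ?_ ?_) ?_ <;> simp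
        calc law 4 {ω | P ω} = 1 * law 4 {ω | P ω} := (one_mul _).symm
          _ ≤ _ := mul_le_mul_left h6 _

theorem upper_bound (p : ℝ) (hp : 1 < p) (ε : ℝ) (hε : 4 * eta p ≤ ε) (f₀ : Fin 4 → ℝ)
    (hf : ∀ v, 0 ≤ f₀ v ∧ f₀ v ≤ 1) : expectedTime p (⊤ : SimpleGraph (Fin 4)) f₀ ε ≤ 192 := by
  rw [expected_eq_tsum]
  set a : ℕ → ℝ≥0∞ := fun t => law 4 {ω | late p (⊤ : SimpleGraph (Fin 4)) f₀ ε t ω} with ha
  have hpow : ∀ m r : ℕ, a (r + 3 * m) ≤ (63 / 64 : ℝ≥0∞) ^ m := by
    intro m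
    induction m with
    | zero =>
      intro r
      rw [pow_zero]
      exact prob_le_one
    | succ m ih =>
      intro r
      calc a (r + 3 * (m + 1)) = a (r + 3 * m + 3) := by ring_nf
        _ ≤ (63 / 64) * a (r + 3 * m) := late_block p hp ε hε f₀ hf _
        _ ≤ (63 / 64) * (63 / 64) ^ m := mul_le_mul_right (ih r) _
        _ = (63 / 64) ^ (m + 1) := (pow_succ' _ _).symm
  have hgeom : ∑' m : ℕ, (63 / 64 : ℝ≥0∞) ^ m = 64 := by
    rw [ENNReal.tsum_geometric]
    have h1 : (1 : ℝ≥0∞) - 63 / 64 = 64⁻¹ := by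
      rw [← ENNReal.toReal_eq_toReal_iff' (ENNReal.sub_ne_top ENNReal.one_ne_top) (by simp)]
      rw [ENNReal.toReal_sub_of_le _ ENNReal.one_ne_top]
      · simp only [ENNReal.toReal_one, ENNReal.toReal_div, ENNReal.toReal_ofNat, ENNReal.toReal_inv]
        norm_num
      · rw [ENNReal.div_le_iff_le_mul (by norm_num) (by norm_num), one_mul]
        norm_num
    rw [h1, inv_inv]
  -- split by residues modulo three
  have hsplit : ∑' t : ℕ, a t = ∑' q : ℕ × Fin 3, a (q.2 + 3 * q.1) := by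
    rw [← (Nat.divModEquiv 3).symm.tsum_eq]
    apply tsum_congr
    rintro ⟨q, r⟩
    simp [Nat.divModEquiv, mul_comm, add_comm]
  rw [hsplit, ENNReal.tsum_prod (f := fun (m : ℕ) (r : Fin 3) => a (r + 3 * m))]
  calc ∑' m : ℕ, ∑' r : Fin 3, a (r + 3 * m) ≤ ∑' m : ℕ, 3 * (63 / 64 : ℝ≥0∞) ^ m := by
        apply ENNReal.tsum_le_tsum
        intro m
        rw [tsum_fintype]
        calc ∑ r : Fin 3, a (r + 3 * m) ≤ ∑ r : Fin 3, (63 / 64 : ℝ≥0∞) ^ m :=
              sum_le_sum (fun r _ => hpow m r)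
          _ = 3 * (63 / 64 : ℝ≥0∞) ^ m := by simp
    _ = 3 * 64 := by rw [ENNReal.tsum_mul_left, hgeom]
    _ = 192 := by norm_num

theorem lower_bound (K : ℕ) :
    (K : ℝ≥0∞) * (3 / 4) ≤ expectedTime 2 (⊤ : SimpleGraph (Fin 4)) start (1 / 3 ^ K / 2) := by
  classical
  have hset : MeasurableSet {ω : ℕ → Fin 4 | ω 0 ≠ 0} := (measurableSet_coord 0 0).compl
  have hmeas : law 4 {ω : ℕ → Fin 4 | ω 0 ≠ 0} = 3 / 4 := by
    have h1 := cylinder_measure (n := 4) 1 (fun _ => 0)
    have h2 : {ω : ℕ → Fin 4 | ∀ i < 1, ω i = 0} = {ω | ω 0 = 0} := by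
      ext ω
      simp
    rw [h2, pow_one] at h1
    have h3 : {ω : ℕ → Fin 4 | ω 0 ≠ 0} = {ω | ω 0 = 0}ᶜ := rfl
    rw [h3, prob_compl_eq_one_sub (measurableSet_coord 0 0), h1]
    rw [← ENNReal.toReal_eq_toReal_iff' (ENNReal.sub_ne_top ENNReal.one_ne_top)
      (ENNReal.div_ne_top (by norm_num) (by norm_num))]
    rw [ENNReal.toReal_sub_of_le _ ENNReal.one_ne_top]
    · simp only [ENNReal.toReal_one, ENNReal.toReal_div, ENNReal.toReal_ofNat, ENNReal.toReal_inv,
        ENNReal.toReal_natCast]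
      norm_num
    · rw [ENNReal.inv_le_one]
      norm_num
  unfold expectedTime
  calc (K : ℝ≥0∞) * (3 / 4) = ∫⁻ ω, {ω : ℕ → Fin 4 | ω 0 ≠ 0}.indicator (fun _ => (K : ℝ≥0∞)) ω
        ∂(law 4) := by rw [lintegral_indicator_const hset, hmeas]
    _ ≤ _ := by
        apply lintegral_mono
        intro ω
        by_cases h : ω 0 ≠ 0
        · rw [Set.indicator_of_mem (show ω ∈ {ω : ℕ → Fin 4 | ω 0 ≠ 0} from h)]
          have h1 : (K : ℕ∞) ≤ consensusTime 2 (⊤ : SimpleGraph (Fin 4)) start (1 / 3 ^ K / 2) ω := by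
            unfold consensusTime
            apply le_iInf₂
            intro t ht
            have h2 := osc_lower ω h t
            have h3 : K ≤ t := by
              by_contra hcon
              rw [not_le] at hcon
              have h4 : (1 : ℝ) / 3 ^ K ≤ 1 / 3 ^ t :=
                one_div_le_one_div_of_le (by positivity)
                  (pow_le_pow_right₀ (by norm_num) hcon.le)
              have h5 : (0 : ℝ) < 1 / 3 ^ K := by positivity
              linarith
            exact_mod_cast h3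
          calc (K : ℝ≥0∞) = (((K : ℕ) : ℕ∞) : ℝ≥0∞) := by simp
            _ ≤ _ := ENat.toENNReal_mono h1
        · rw [Set.indicator_of_notMem (show ω ∉ {ω : ℕ → Fin 4 | ω 0 ≠ 0} from h)]
          exact zero_le

/-- for every `ε > 0` there is `p` in `(1, 2)` with `4 η(p) ≤ ε` -/
theorem exists_exponent (ε : ℝ) (hε : 0 < ε) : ∃ p : ℝ, 1 < p ∧ p < 2 ∧ 4 * eta p ≤ ε := by
  obtain ⟨m, hm⟩ := exists_pow_lt_of_lt_one (show 0 < ε / 4 by linarith)
    (show (1 / 2 : ℝ) < 1 by norm_num)
  refine ⟨1 + 1 / (m + 2), ?_, ?_, ?_⟩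
  · have : (0 : ℝ) < 1 / (m + 2) := by positivity
    linarith
  · have : (1 : ℝ) / (m + 2) < 1 := by
      rw [div_lt_one (by positivity)]
      have : (0 : ℝ) ≤ m := Nat.cast_nonneg m
      linarith
    linarith
  · unfold eta
    have h1 : (1 : ℝ) / (1 + 1 / (m + 2) - 1) = m + 2 := by
      rw [add_sub_cancel_left, one_div_one_div]
    rw [h1]
    have h2 : (1 / 2 : ℝ) ^ ((m : ℝ) + 2) ≤ (1 / 2) ^ m := by
      rw [← Real.rpow_natCast]
      apply Real.rpow_le_rpow_of_exponent_ge (by norm_num) (by norm_num)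
      linarith
    linarith

/-- There is no constant `C` as in the question; already on the complete graph with four vertices,
with `p₂ = 2`, the quotient of the expected consensus times is unbounded. -/
theorem result :
    (¬ ∃ C : ℝ, ∀ (n : ℕ) [NeZero n], 1 < n → ∀ G : SimpleGraph (Fin n), G.Connected →
      ∀ f₀ : Fin n → ℝ, (∀ v, 0 ≤ f₀ v ∧ f₀ v ≤ 1) → ∀ ε : ℝ, 0 < ε →
        ∀ p₁ p₂ : ℝ, 1 < p₁ → p₁ < p₂ →
          expectedTime p₂ G f₀ ε ≤ ENNReal.ofReal C * expectedTime p₁ G f₀ ε) ∧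
    ∀ C : ℝ, ∃ f₀ : Fin 4 → ℝ, (∀ v, 0 ≤ f₀ v ∧ f₀ v ≤ 1) ∧ ∃ ε p₁ : ℝ, 0 < ε ∧ 1 < p₁ ∧ p₁ < 2 ∧
      ENNReal.ofReal C * expectedTime p₁ (⊤ : SimpleGraph (Fin 4)) f₀ ε <
        expectedTime 2 (⊤ : SimpleGraph (Fin 4)) f₀ ε := by
  have main : ∀ C : ℝ, ∃ f₀ : Fin 4 → ℝ, (∀ v, 0 ≤ f₀ v ∧ f₀ v ≤ 1) ∧ ∃ ε p₁ : ℝ, 0 < ε ∧
      1 < p₁ ∧ p₁ < 2 ∧ ENNReal.ofReal C * expectedTime p₁ (⊤ : SimpleGraph (Fin 4)) f₀ ε <
        expectedTime 2 (⊤ : SimpleGraph (Fin 4)) f₀ ε := by
    intro C
    obtain ⟨K, hK⟩ := exists_nat_gt (256 * |C|)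
    obtain ⟨p₁, h1, h2, h3⟩ := exists_exponent (1 / 3 ^ K / 2) (by positivity)
    refine ⟨start, start_range, 1 / 3 ^ K / 2, p₁, by positivity, h1, h2, ?_⟩
    refine lt_of_le_of_lt (mul_le_mul_right (upper_bound p₁ h1 _ h3 start start_range) _) ?_
    refine lt_of_lt_of_le ?_ (lower_bound K)
    rw [← ENNReal.toReal_lt_toReal]
    · simp only [ENNReal.toReal_mul, ENNReal.toReal_ofNat, ENNReal.toReal_natCast,
        ENNReal.toReal_div]
      have h4 : (ENNReal.ofReal C).toReal ≤ |C| := by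
        rw [ENNReal.toReal_ofReal']
        exact max_le (le_abs_self C) (abs_nonneg C)
      linarith
    · exact ENNReal.mul_ne_top ENNReal.ofReal_ne_top (by norm_num)
    · exact ENNReal.mul_ne_top (by simp) (ENNReal.div_ne_top (by norm_num) (by norm_num))
  refine ⟨?_, main⟩
  rintro ⟨C, hC⟩
  obtain ⟨f₀, hf, ε, p₁, hε, h1, h2, hlt⟩ := main C
  have := hC 4 (by norm_num) (⊤ : SimpleGraph (Fin 4)) SimpleGraph.connected_top f₀ hf ε hε p₁ 2 h1 h2
  exact absurd this (not_le.mpr hlt)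

end Bounds

end Pool.Agent.Results.MP_7677b2_pr.NoComparison
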